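import Pool.Agent.Helper948.Dom.Final

set_option autoImplicit false

namespace Pool.Agent.H477Z.Med

open Pool.Agent.Helper948.Dom
open JA JB JC JD JE JF JG JH JI JJ JK JL JM JN KA KB KC KD KE KF KG KH KP1 KP2 KP3 KP4 KQ

/-- The group of the domino counterexample has, in addition, a point with finite orbit in every
nonempty shift of finite type. -/
theorem main2 : ∃ Kinf : Subgroup F, ∃ _ : Kinf.Normal,
    ComputablePred (fun I : Inp => Good I Kinf) ∧
    (¬ ∃ H : Subgroup (F ⧸ Kinf), H.FiniteIndex ∧ IsFreeGroup H) ∧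
    ∀ I : Inp, Good I Kinf → ∃ K : Subgroup F, FN K ∧ Kinf ≤ K ∧ Good I K := by
  obtain ⟨c, hcomp, hc0, hstep⟩ := exists_seq
  have hgood : ∀ n, GoodCode (c n) := by
    intro n
    induction n with
    | zero => rw [hc0]; exact c0_good
    | succ n ih => exact good_step _ _ _ ih (hstep n)
  choose hv K hK hker hND using hgood
  have hsound : ∀ n, Ext (K n) (c n).1 (K (n + 1)) ∧ ND (K (n + 1)) (c (n + 1)).1 := fun n =>
    okStep_sound (c n) (c (n + 1)) (inp n) (K n) (K (n + 1)) (hK n) (hK (n + 1)) (hv n)
      (hker n) (hker (n + 1)) (hstep n)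
  have hmc : StrictMono (fun n => (c n).1) := strictMono_nat_of_lt_succ (fun n => (hstep n).2.2.2.1)
  have hanti : Antitone K := antitone_nat_of_succ_le (fun n => (hsound n).1.1)
  have hrel : ∀ n, ∀ w ∈ W ((c n).1 + 1), w ∈ K n → w ∈ ⨅ n, K n := by
    intro n w hw hwK
    have key : ∀ i, w ∈ K (n + i) := by
      intro i
      induction i with
      | zero => exact hwK
      | succ i ih =>
        have hw' : w ∈ W ((c (n + i)).1 + 1) :=
          W_mono (Nat.succ_le_succ (hmc.monotone (Nat.le_add_right n i))) hw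
        exact (hsound (n + i)).1.2 w hw' ih
    rw [Subgroup.mem_iInf]
    intro i
    rcases le_total i n with h | h
    · exact hanti h hwK
    · obtain ⟨j, rfl⟩ := Nat.exists_eq_add_of_le h
      exact key j
  have hle : ∀ n, (⨅ n, K n) ≤ K n := fun n => iInf_le K n
  have hn : (⨅ n, K n).Normal := Subgroup.normal_iInf_normal (fun n => (hK n).normal)
  have hiff : ∀ I : Inp, Good I (⨅ n, K n) ↔
      Commit I (c (Encodable.encode I + 1)).2.1 (c (Encodable.encode I + 1)).2.2 := by
    intro I
    set n := Encodable.encode I with hndef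
    have hI : inp n = I := inp_encode I
    have hs := hstep n
    rw [hI] at hs
    constructor
    · intro hg
      rcases hs.2.2.2.2.2.2 with h | h
      · exact h
      · exfalso
        obtain ⟨D, _, hD, hY⟩ := h
        have hNB : NoBall I (K (n + 1)) D :=
          (noBall_iff I (K (n + 1)) (hK (n + 1)) _ _ (hv (n + 1)) (hker (n + 1)) D).2 hY
        exact kill_sound (K (n + 1)) (⨅ n, K n) (hK (n + 1)).normal hn _ D (hND (n + 1)) hD
          (hrel (n + 1)) I hNB hg
    · intro hc
      exact (commit_sound I (K (n + 1)) (hK (n + 1)) _ _ (hv (n + 1)) (hker (n + 1)) hc).mono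
        (hle (n + 1))
  refine ⟨⨅ n, K n, hn, ?_, ?_, ?_⟩
  · obtain ⟨dec, hprim⟩ := primrec_commit
    have hf : Computable (fun I : Inp =>
        ((I, (c (Encodable.encode I + 1)).2) : Inp × (ℕ × List (List ℕ)))) := by
      refine Computable.pair Computable.id ?_
      refine Computable.snd.comp (hcomp.comp ?_)
      exact Computable.succ.comp Computable.encode
    refine ⟨fun I => @decidable_of_iff _ _ (hiff I).symm
      (dec ((I, (c (Encodable.encode I + 1)).2) : Inp × (ℕ × List (List ℕ)))), ?_⟩
    refine (hprim.to_comp.comp hf).of_eq ?_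
    intro I
    simp only [decide_eq_decide]
    exact (hiff I).symm
  · exact not_virt_free K (fun n => (c n).1) hmc hK hND hrel
  · intro I hI
    refine ⟨K (Encodable.encode I + 1), hK _, hle _, ?_⟩
    exact commit_sound I _ (hK _) _ _ (hv _) (hker _) ((hiff I).1 hI)

/-- three colours suffice to separate every point from its image under a map `g ↦ g * w`. -/
theorem three_colour {G : Type} [Group G] (w : G) (hw : w ≠ 1) :
    ∃ x : G → Fin 3, ∀ g, x (g * w) ≠ x g := by
  classical
  obtain ⟨S, hS⟩ : ∃ S, Maximal (fun S : Set G => ∀ g ∈ S, g * w ∉ S) S := by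
    apply zorn_subset
    intro c hc hchain
    refine ⟨⋃₀ c, ?_, fun s hs => Set.subset_sUnion_of_mem hs⟩
    rintro g ⟨s, hs, hgs⟩ ⟨t, ht, hgt⟩
    rcases hchain.total hs ht with h | h
    · exact hc ht g (h hgs) hgt
    · exact hc hs g hgs (h hgt)
  have hmax : ∀ g, g ∉ S → g * w ∉ S → g * w⁻¹ ∈ S := by
    intro g hg hgw
    by_contra hgi
    have h1 : ∀ a ∈ insert g S, a * w ∉ insert g S := by
      intro a ha hb
      rcases ha with rfl | ha
      · rcases hb with hb | hb
        · exact hw (by simpa using hb)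
        · exact hgw hb
      · rcases hb with hb | hb
        · apply hgi
          rw [← hb]; simpa using ha
        · exact hS.prop a ha hb
    exact hg (hS.le_of_ge h1 (Set.subset_insert g S) (Set.mem_insert g S))
  refine ⟨fun g => if g ∈ S then 2 else if g * w⁻¹ ∈ S then 0 else 1, ?_⟩
  intro g
  by_cases h1 : g ∈ S
  · have h2 := hS.prop g h1
    simp [h1, h2]
  · by_cases h2 : g * w ∈ S
    · simp only [h1, h2, if_true, if_false]
      split_ifs <;> decide
    · have h3 := hmax g h1 h2
      simp [h1, h2, h3]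

/-- the domino instance that tests whether a word is trivial -/
def wInst (w : List (Fin 2 × Bool)) : Inp :=
  (3, [[([], 0), (w, 0)], [([], 1), (w, 1)], [([], 2), (w, 2)]])

theorem primrec_wInst : Primrec wInst := by
  unfold wInst
  have h : ∀ c : ℕ, Primrec (fun w : List (Fin 2 × Bool) =>
      ([(([] : List (Fin 2 × Bool)), c), (w, c)] : List (List (Fin 2 × Bool) × ℕ))) := fun c =>
    Primrec.list_cons.comp (Primrec.const _)
      (Primrec.list_cons.comp (Primrec.pair Primrec.id (Primrec.const c)) (Primrec.const _))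
  exact Primrec.pair (Primrec.const 3) (Primrec.list_cons.comp (h 0)
    (Primrec.list_cons.comp (h 1) (Primrec.list_cons.comp (h 2) (Primrec.const _))))

theorem good_wInst (K : Subgroup F) [hK : K.Normal] (w : List (Fin 2 × Bool)) :
    Good (wInst w) K ↔ FreeGroup.mk w ∉ K := by
  constructor
  · rintro ⟨x, hx, hP⟩ hw
    have h1 := hx 1 _ hw
    have e0 : (FreeGroup.mk ([] : List (Fin 2 × Bool)) : F) = 1 := rfl
    have h0 := hP 1 [([], 0), (w, 0)] (by simp [wInst])
    have h1' := hP 1 [([], 1), (w, 1)] (by simp [wInst])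
    have h2 := hP 1 [([], 2), (w, 2)] (by simp [wInst])
    simp only [List.mem_cons, List.not_mem_nil, or_false, forall_eq_or_imp, forall_eq, e0,
      mul_one, h1, and_self] at h0 h1' h2
    have : (x 1 : ℕ) < 3 := (x 1).isLt
    omega
  · intro hw
    have hw' : ((FreeGroup.mk w : F) : F ⧸ K) ≠ 1 := by
      rwa [Ne, QuotientGroup.eq_one_iff]
    obtain ⟨x, hx⟩ := three_colour _ hw'
    refine ⟨fun g => x (g : F ⧸ K), ?_, ?_⟩
    · intro g k hk
      exact congrArg x (QuotientGroup.mk_mul_of_mem g hk)
    · intro g P hP hq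
      have e0 : (FreeGroup.mk ([] : List (Fin 2 × Bool)) : F) = 1 := rfl
      have hne := hx (g : F ⧸ K)
      rw [← QuotientGroup.mk_mul] at hne
      simp only [wInst, List.mem_cons, List.not_mem_nil, or_false] at hP
      apply hne
      apply Fin.ext
      rcases hP with rfl | rfl | rfl <;>
      · simp only [List.mem_cons, List.not_mem_nil, or_false, forall_eq_or_imp, forall_eq, e0,
          mul_one] at hq
        exact hq.2.trans hq.1.symm

end Pool.Agent.H477Z.Med
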