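import Mathlib

set_option autoImplicit false

namespace Pool.Agent.H477Z.Med

open Nat.Partrec (Code)
open Nat.Partrec.Code

theorem ofFn_eq_map (y : ℕ → ℕ) (m : ℕ) :
    (List.ofFn fun j : Fin m => y j.val) = (List.range m).map y := by
  apply List.ext_getElem <;> simp

theorem computable_init {y : ℕ → ℕ} (hy : Computable y) :
    Computable (fun m : ℕ => (List.range m).map y) := by
  have h := Computable.nat_rec (f := fun m : ℕ => m) (g := fun _ : ℕ => ([] : List ℕ))
    (h := fun _ (p : ℕ × List ℕ) => p.2 ++ [y p.1]) Computable.id (Computable.const _)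
    (Computable.list_concat.comp (Computable.snd.comp Computable.snd)
      (hy.comp (Computable.fst.comp Computable.snd)))
  refine h.of_eq ?_
  intro m
  induction m with
  | zero => rfl
  | succ m ih => simp only [List.range_succ, List.map_append, List.map_cons, List.map_nil, ← ih]

theorem init_mono (y : ℕ → ℕ) {m n : ℕ} (h : m ≤ n) :
    (List.range m).map y <+: (List.range n).map y :=
  List.IsPrefix.map y (by
    obtain ⟨k, rfl⟩ := Nat.exists_eq_add_of_le h
    rw [List.range_add]
    exact List.prefix_append _ _)

/-- the image of a computable point under a computable monotone functional is computable -/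
theorem computable_image {f : List ℕ → List ℕ} (hf : Computable f)
    (hmono : ∀ σ τ : List ℕ, σ <+: τ → f σ <+: f τ) {y x : ℕ → ℕ} (hy : Computable y)
    (h : ∀ n : ℕ, ∃ m : ℕ, ∀ i < n, (f (List.ofFn fun j : Fin m => y j.val))[i]? = some (x i)) :
    Computable x := by
  simp only [ofFn_eq_map] at h
  have h2 : Computable₂ (fun (i m : ℕ) => (f ((List.range m).map y))[i]?) :=
    (Primrec.list_getElem?.to_comp).comp
      (hf.comp ((computable_init hy).comp Computable.snd)) Computable.fst
  have h3 := Partrec.rfindOpt h2
  refine h3.of_eq_tot ?_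
  intro i
  rw [Nat.rfindOpt_mono]
  · obtain ⟨m, hm⟩ := h (i + 1)
    exact ⟨m, hm i (Nat.lt_succ_self i)⟩
  · intro a m n hmn ha
    obtain ⟨t, ht⟩ := hmono _ _ (init_mono y hmn)
    rw [Option.mem_def] at ha ⊢
    rw [← ht]
    have hi : i < (f ((List.range m).map y)).length := by
      by_contra hi
      rw [List.getElem?_eq_none (by omega)] at ha
      cases ha
    rw [List.getElem?_append_left hi]
    exact ha

/-- the test which kills a finite string that agrees somewhere with the diagonal function -/
def diag (σ : List ℕ) : Bool :=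
  decide (∃ e < σ.length, evaln σ.length (Denumerable.ofNat Code e) e = σ[e]?)

theorem primrec_diag : Primrec diag := by
  have h1 : PrimrecRel (fun (e : ℕ) (σ : List ℕ) =>
      evaln σ.length (Denumerable.ofNat Code e) e = σ[e]?) := by
    refine Primrec.eq.comp ?_ ?_
    · exact primrec_evaln.comp (Primrec.pair (Primrec.pair (Primrec.list_length.comp Primrec.snd)
        ((Primrec.ofNat Code).comp Primrec.fst)) Primrec.fst)
    · exact Primrec.list_getElem?.comp Primrec.snd Primrec.fst
  have h2 := PrimrecRel.exists_mem_list h1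
  have h3 : PrimrecPred (fun σ : List ℕ =>
      ∃ e < σ.length, evaln σ.length (Denumerable.ofNat Code e) e = σ[e]?) :=
    (h2.comp (Primrec.list_range.comp Primrec.list_length) Primrec.id).of_eq (by simp)
  exact h3.decide

theorem diag_nonempty : ∃ x : ℕ → ℕ, (∀ n, x n ≤ 1) ∧
    ∀ m : ℕ, diag (List.ofFn fun j : Fin m => x j.val) = false := by
  classical
  obtain ⟨x, hx⟩ : ∃ x : ℕ → ℕ, ∀ e, x e = if 0 ∈ eval (Denumerable.ofNat Code e) e then 1 else 0 :=
    ⟨_, fun _ => rfl⟩
  refine ⟨x, ?_, ?_⟩
  · intro n
    rw [hx]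
    split_ifs <;> omega
  · intro m
    rw [ofFn_eq_map]
    simp only [diag, List.length_map, List.length_range, decide_eq_false_iff_not]
    rintro ⟨e, he, h⟩
    rw [List.getElem?_map, List.getElem?_range he, Option.map_some, hx] at h
    have h1 := evaln_sound (Option.mem_def.2 h)
    by_cases h0 : 0 ∈ eval (Denumerable.ofNat Code e) e
    · rw [if_pos h0] at h1
      exact absurd (Part.mem_unique h0 h1) (by decide)
    · rw [if_neg h0] at h1
      exact h0 h1

theorem diag_not_computable {x : ℕ → ℕ} (hx : Computable x) :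
    ∃ m : ℕ, diag (List.ofFn fun j : Fin m => x j.val) = true := by
  obtain ⟨c, hc⟩ := exists_code.1 (Partrec.nat_iff.1 hx.partrec)
  have h1 : x (Encodable.encode c) ∈ eval c (Encodable.encode c) := by
    rw [hc]; simp
  obtain ⟨k, hk⟩ := evaln_complete.1 h1
  refine ⟨max k (Encodable.encode c + 1), ?_⟩
  rw [ofFn_eq_map]
  simp only [diag, List.length_map, List.length_range, decide_eq_true_eq]
  have hlt : Encodable.encode c < max k (Encodable.encode c + 1) :=
    lt_of_lt_of_le (Nat.lt_succ_self _) (le_max_right _ _)
  refine ⟨Encodable.encode c, hlt, ?_⟩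
  rw [List.getElem?_map, List.getElem?_range hlt, Option.map_some, Denumerable.ofNat_encode]
  exact Option.mem_def.1 (evaln_mono (le_max_left _ _) hk)

/-- a colouring that factors through a finite group gives a computable point -/
theorem primrec_finite {Q : Type} [Group Q] [Finite Q] {r : ℕ} (s : Fin r → Q) (z : Q → ℕ) :
    Primrec (fun n : ℕ => (Encodable.decode n : Option (List (Fin r × Bool))).elim 0
      (fun w => z (w.map fun p => cond p.2 (s p.1) (s p.1)⁻¹).prod)) := by
  obtain ⟨N, ⟨e⟩⟩ := Finite.exists_equiv_fin Q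
  let _ : Primcodable Q := Primcodable.ofEquiv (Fin N) e
  have h1 : Primrec (fun w : List (Fin r × Bool) =>
      w.foldr (fun p q => cond p.2 (s p.1) (s p.1)⁻¹ * q) (1 : Q)) := by
    have h := Primrec.list_foldr (f := fun w : List (Fin r × Bool) => w) (g := fun _ => (1 : Q))
      (h := fun _ (pq : (Fin r × Bool) × Q) => cond pq.1.2 (s pq.1.1) (s pq.1.1)⁻¹ * pq.2)
      Primrec.id (Primrec.const _)
      ((Primrec.dom_finite (fun pq : (Fin r × Bool) × Q =>
        cond pq.1.2 (s pq.1.1) (s pq.1.1)⁻¹ * pq.2)).comp Primrec.snd)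
    exact h
  have h2 : Primrec (fun w : List (Fin r × Bool) =>
      z (w.map fun p => cond p.2 (s p.1) (s p.1)⁻¹).prod) := by
    refine ((Primrec.dom_finite z).comp h1).of_eq ?_
    intro w
    congr 1
    induction w with
    | nil => rfl
    | cons p w ih => simp only [List.foldr_cons, List.map_cons, List.prod_cons, ih]
  have h3 := Primrec.option_casesOn (o := fun n : ℕ =>
      (Encodable.decode n : Option (List (Fin r × Bool)))) (f := fun _ => (0 : ℕ))
    (g := fun _ (w : List (Fin r × Bool)) =>
      z (w.map fun p : Fin r × Bool => cond p.2 (s p.1) (s p.1)⁻¹).prod)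
    Primrec.decode (Primrec.const 0) (h2.comp Primrec.snd)
  refine h3.of_eq ?_
  intro n
  cases (Encodable.decode n : Option (List (Fin r × Bool))) <;> rfl

theorem virt_free_of_finite (G : Type) [Group G] [Finite G] :
    ∃ H : Subgroup G, H.FiniteIndex ∧ IsFreeGroup H := by
  refine ⟨⊥, inferInstance, ?_⟩
  have _ : Unique (FreeGroup Empty) := inferInstance
  exact IsFreeGroup.ofMulEquiv (G := FreeGroup Empty) MulEquiv.ofUnique

end Pool.Agent.H477Z.Med
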