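import Pool.Agent.H477Z.MedA
import Pool.Agent.H477Z.MedB

set_option autoImplicit false

namespace Pool.Agent.H477Z.Med

open Pool.Agent.Helper948.Dom

theorem eval_word {G : Type} [Group G] (φ : F →* G) (w : List (Fin 2 × Bool)) :
    (w.map fun p => cond p.2 (φ (FreeGroup.of p.1)) (φ (FreeGroup.of p.1))⁻¹).prod
      = φ (FreeGroup.mk w) := by
  have h : FreeGroup.lift (fun i : Fin 2 => φ (FreeGroup.of i)) = φ := by
    ext i; simp
  conv_rhs => rw [← h]
  rw [FreeGroup.lift_mk]

/-- An infinite, finitely generated group with solvable word problem which is not virtually free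
and in which every nonempty shift of finite type has a point factoring through a finite group. -/
theorem exists_group : ∃ (G : Type) (_ : Group G) (φ : F →* G), Function.Surjective φ ∧
    ComputablePred (fun w : List (Fin 2 × Bool) => φ (FreeGroup.mk w) = 1) ∧
    (¬ ∃ H : Subgroup G, H.FiniteIndex ∧ IsFreeGroup H) ∧
    ∀ (k : ℕ) (P : List (Finset G × (G → Fin k))),
      (∃ x : G → Fin k, ∀ g : G, ∀ q ∈ P, ¬ ∀ h ∈ q.1, x (g * h) = q.2 h) →
      ∃ (Q : Type) (_ : Group Q) (_ : Finite Q) (ψ : G →* Q) (z : Q → Fin k),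
        ∀ g : G, ∀ q ∈ P, ¬ ∀ h ∈ q.1, z (ψ (g * h)) = q.2 h := by
  classical
  obtain ⟨Kinf, hn, hcomp, hnvf, hper⟩ := main2
  refine ⟨F ⧸ Kinf, inferInstance, QuotientGroup.mk' Kinf, QuotientGroup.mk'_surjective _, ?_,
    hnvf, ?_⟩
  · have h1 : ComputablePred (fun w : List (Fin 2 × Bool) => Good (wInst w) Kinf) := by
      obtain ⟨f, hf, hfe⟩ := ComputablePred.computable_iff.1 hcomp
      refine ComputablePred.computable_iff.2 ⟨fun w => f (wInst w),
        hf.comp primrec_wInst.to_comp, ?_⟩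
      funext w
      exact congrFun hfe (wInst w)
    refine h1.not.of_eq ?_
    intro w
    rw [good_wInst, not_not, QuotientGroup.mk'_apply, QuotientGroup.eq_one_iff]
  · rintro k P ⟨x, hx⟩
    let wd : F ⧸ Kinf → List (Fin 2 × Bool) := fun h => (Quotient.out h : F).toWord
    have hwd : ∀ h, ((FreeGroup.mk (wd h) : F) : F ⧸ Kinf) = h := by
      intro h
      simp only [wd, FreeGroup.mk_toWord, QuotientGroup.out_eq']
    let I : Inp := (k, P.map fun q => q.1.toList.map fun h => (wd h, (q.2 h : ℕ)))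
    have hI : Good I Kinf := by
      refine ⟨fun g => x (g : F ⧸ Kinf), ?_, ?_⟩
      · intro g κ hκ
        exact congrArg x (QuotientGroup.mk_mul_of_mem g hκ)
      · intro g p hp hq
        obtain ⟨q, hqP, rfl⟩ := List.mem_map.1 hp
        refine hx (g : F ⧸ Kinf) q hqP ?_
        intro h hh
        have := hq (wd h, (q.2 h : ℕ)) (List.mem_map.2 ⟨h, Finset.mem_toList.2 hh, rfl⟩)
        simp only [QuotientGroup.mk_mul, hwd] at this
        exact Fin.ext this
    obtain ⟨K, hK, hle, y, hy, hyP⟩ := hper I hI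
    have := hK.normal
    have := hK.fin
    have key : ∀ g : F, y (Quotient.out (g : F ⧸ K)) = y g := by
      intro g
      obtain ⟨κ, hκ⟩ := QuotientGroup.mk_out_eq_mul K g
      rw [hκ]; exact hy g κ κ.2
    have hle' : Kinf ≤ K.comap (MonoidHom.id F) := hle
    refine ⟨F ⧸ K, inferInstance, inferInstance,
      QuotientGroup.map Kinf K (MonoidHom.id F) hle', fun γ => y (Quotient.out γ), ?_⟩
    intro g q hqP hq
    obtain ⟨g, rfl⟩ := QuotientGroup.mk_surjective g
    refine hyP g _ (List.mem_map.2 ⟨q, hqP, rfl⟩) ?_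
    intro p hp
    obtain ⟨h, hh, rfl⟩ := List.mem_map.1 hp
    have h1 := hq h (Finset.mem_toList.1 hh)
    rw [← hwd h, ← QuotientGroup.mk_mul, QuotientGroup.map_mk, MonoidHom.id_apply] at h1
    simp only [key, hwd] at h1
    exact congrArg Fin.val h1

theorem final :
    ¬ (∀ (red : Set (ℕ → ℕ) → Set (ℕ → ℕ) → Prop),
      red = (fun P Q => ∃ f : List ℕ → List ℕ, Computable f ∧
          (∀ σ τ : List ℕ, σ <+: τ → f σ <+: f τ) ∧
          ∀ y ∈ Q, ∃ x ∈ P, ∀ n : ℕ, ∃ m : ℕ, ∀ i < n,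
            (f (List.ofFn fun j : Fin m => y j.val))[i]? = some (x i)) →
    ∀ (pi : (List ℕ → Bool) → Set (ℕ → ℕ)),
      pi = (fun c => {x : ℕ → ℕ | (∀ n, x n ≤ 1) ∧
          ∀ m : ℕ, c (List.ofFn fun j : Fin m => x j.val) = false}) →
    ∀ (G : Type) [Group G] [Infinite G] (r : ℕ) (gens : Fin r → G),
      Subgroup.closure (Set.range gens) = ⊤ →
      REPred (fun w : List (Fin r × Bool) =>
        (w.map fun p => cond p.2 (gens p.1) (gens p.1)⁻¹).prod = 1) →
    ∀ (S : (k : ℕ) → List (Finset G × (G → Fin k)) → Set (ℕ → ℕ)),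
      S = (fun k F => {y : ℕ → ℕ | ∃ x : G → Fin k,
          (∀ g : G, ∀ q ∈ F, ¬ ∀ h ∈ q.1, x (g * h) = q.2 h) ∧
          ∀ n : ℕ, y n = (Encodable.decode n : Option (List (Fin r × Bool))).elim 0
            (fun w => (x (w.map fun p => cond p.2 (gens p.1) (gens p.1)⁻¹).prod).val)}) →
    ((¬ ∃ H : Subgroup G, H.FiniteIndex ∧ IsFreeGroup H) ↔
      ((∀ (k : ℕ) (F : List (Finset G × (G → Fin k))), (S k F).Nonempty →
          ∃ c : List ℕ → Bool, Computable c ∧ (pi c).Nonempty ∧
            red (pi c) (S k F) ∧ red (S k F) (pi c)) ∧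
       (∀ c : List ℕ → Bool, Computable c → (pi c).Nonempty →
          ∃ (k : ℕ) (F : List (Finset G × (G → Fin k))), (S k F).Nonempty ∧
            red (pi c) (S k F) ∧ red (S k F) (pi c))))) := by
  intro hall
  obtain ⟨G, _, φ, hsurj, hwp, hnvf, hper⟩ := exists_group
  have hinf : Infinite G := by
    by_contra hfin
    have : Finite G := not_infinite_iff_finite.1 hfin
    exact hnvf (virt_free_of_finite G)
  have hgen : Subgroup.closure (Set.range fun i : Fin 2 => φ (FreeGroup.of i)) = ⊤ := by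
    rw [eq_top_iff]
    intro γ _
    obtain ⟨g, rfl⟩ := hsurj γ
    have : φ g ∈ (Subgroup.closure (Set.range (FreeGroup.of : Fin 2 → F))).map φ := by
      refine Subgroup.mem_map_of_mem _ ?_
      rw [FreeGroup.closure_range_of]; trivial
    rw [MonoidHom.map_closure, ← Set.range_comp] at this
    exact this
  have h := hall _ rfl _ rfl G 2 (fun i => φ (FreeGroup.of i)) hgen
    (hwp.to_re.of_eq fun w => by rw [eval_word]) _ rfl
  obtain ⟨k, P, ⟨y, x, hx, -⟩, ⟨f, hf, hmono, hred⟩, -⟩ :=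
    (h.1 hnvf).2 diag primrec_diag.to_comp diag_nonempty
  obtain ⟨Q, _, _, ψ, z, hz⟩ := hper k P ⟨x, hx⟩
  have hprim := primrec_finite (fun i : Fin 2 => ψ (φ (FreeGroup.of i))) (fun q => (z q : ℕ))
  obtain ⟨y', hy'⟩ : ∃ y' : ℕ → ℕ, ∀ n : ℕ,
      y' n = (Encodable.decode n : Option (List (Fin 2 × Bool))).elim 0
        (fun w => (z (ψ (w.map fun p =>
          cond p.2 (φ (FreeGroup.of p.1)) (φ (FreeGroup.of p.1))⁻¹).prod)).val) :=
    ⟨_, fun _ => rfl⟩
  obtain ⟨u, ⟨-, hu⟩, hlim⟩ := hred y' ⟨fun g => z (ψ g), hz, hy'⟩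
  have hcomp : Computable u := by
    refine computable_image hf hmono ?_ hlim
    refine hprim.to_comp.of_eq ?_
    intro n
    rw [hy']
    cases (Encodable.decode n : Option (List (Fin 2 × Bool))) with
    | none => rfl
    | some w =>
      simp only [Option.elim_some]
      rw [eval_word φ w]
      exact congrArg (fun q => (z q : ℕ)) (eval_word (ψ.comp φ) w)
  obtain ⟨m, hm⟩ := diag_not_computable hcomp
  rw [hu m] at hm
  cases hm

end Pool.Agent.H477Z.Med
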