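import Pool.Agent.H985Z.SC.Spec

/-! Basic geometry of the Sierpinski carpet (`S_G0`). -/

namespace Pool.Agent.H985Z.SC

open Set

namespace G0aux

lemma mem_iff {K : Set (ℝ × ℝ)} (hK : IsCarpet K) (p : ℝ × ℝ) :
    p ∈ K ↔ ∃ a : Fin 3 × Fin 3, a ≠ (1, 1) ∧ ∃ q ∈ K, psi a q = p := by
  have h := hK.2.2
  constructor
  · intro hp
    rw [h] at hp
    simp only [mem_iUnion, mem_ofPred_eq, mem_image, exists_prop] at hp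
    exact hp
  · intro hp
    rw [h]
    simp only [mem_iUnion, mem_ofPred_eq, mem_image, exists_prop]
    exact hp

lemma psi_mem {K : Set (ℝ × ℝ)} (hK : IsCarpet K) {a : Fin 3 × Fin 3} (ha : a ≠ (1, 1))
    {q : ℝ × ℝ} (hq : q ∈ K) : psi a q ∈ K :=
  (mem_iff hK _).2 ⟨a, ha, q, hq, rfl⟩

lemma digit_le (i : Fin 3) : (0 : ℝ) ≤ ((i : ℕ) : ℝ) ∧ ((i : ℕ) : ℝ) ≤ 2 := by
  refine ⟨Nat.cast_nonneg _, ?_⟩
  have h : (i : ℕ) ≤ 2 := by omega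
  exact_mod_cast h

lemma sub_sq {K : Set (ℝ × ℝ)} (hK : IsCarpet K) : K ⊆ Icc (0 : ℝ) 1 ×ˢ Icc (0 : ℝ) 1 := by
  let r : ℝ × ℝ → ℝ := fun p => max (max (-p.1) (p.1 - 1)) (max (-p.2) (p.2 - 1))
  have hr : Continuous r := by fun_prop
  obtain ⟨p0, hp0, hmax⟩ := hK.1.exists_isMaxOn hK.2.1 hr.continuousOn
  have hle : ∀ p ∈ K, -p.1 ≤ r p0 ∧ p.1 - 1 ≤ r p0 ∧ -p.2 ≤ r p0 ∧ p.2 - 1 ≤ r p0 := by
    intro p hp
    have h : r p ≤ r p0 := hmax hp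
    simp only [r, max_le_iff] at h
    exact ⟨h.1.1, h.1.2, h.2.1, h.2.2⟩
  have h0 : r p0 ≤ 0 := by
    obtain ⟨a, -, q, hq, hqp⟩ := (mem_iff hK p0).1 hp0
    obtain ⟨h1, h2, h3, h4⟩ := hle q hq
    have d1 := digit_le a.1
    have d2 := digit_le a.2
    have e1 : p0.1 = (q.1 + ((a.1 : ℕ) : ℝ)) / 3 := by rw [← hqp]; rfl
    have e2 : p0.2 = (q.2 + ((a.2 : ℕ) : ℝ)) / 3 := by rw [← hqp]; rfl
    have h5 : r p0 ≤ r p0 / 3 := by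
      have : max (max (-p0.1) (p0.1 - 1)) (max (-p0.2) (p0.2 - 1)) ≤ r p0 / 3 := by
        simp only [max_le_iff]
        refine ⟨⟨?_, ?_⟩, ?_, ?_⟩ <;> linarith [d1.1, d1.2, d2.1, d2.2]
      exact this
    linarith
  intro p hp
  obtain ⟨h1, h2, h3, h4⟩ := hle p hp
  exact ⟨⟨by linarith, by linarith⟩, by linarith, by linarith⟩

lemma mem_V0 (p : ℝ × ℝ) : p ∈ V0 ↔ p ∈ Icc (0 : ℝ) 1 ×ˢ Icc (0 : ℝ) 1 ∧
    (p.1 = 0 ∨ p.1 = 1 ∨ p.2 = 0 ∨ p.2 = 1) := by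
  unfold V0
  rw [frontier_prod_eq, frontier_Icc (zero_le_one' ℝ), closure_Icc]
  simp only [mem_union, mem_prod, mem_Icc, mem_insert_iff, mem_singleton_iff]
  constructor
  · rintro (⟨h1, h2 | h2⟩ | ⟨h1 | h1, h2⟩)
    · exact ⟨⟨h1, by rw [h2]; norm_num⟩, by tauto⟩
    · exact ⟨⟨h1, by rw [h2]; norm_num⟩, by tauto⟩
    · exact ⟨⟨by rw [h1]; norm_num, h2⟩, by tauto⟩
    · exact ⟨⟨by rw [h1]; norm_num, h2⟩, by tauto⟩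
  · rintro ⟨⟨h1, h2⟩, h | h | h | h⟩
    · exact Or.inr ⟨Or.inl h, h2⟩
    · exact Or.inr ⟨Or.inr h, h2⟩
    · exact Or.inl ⟨h1, Or.inl h⟩
    · exact Or.inl ⟨h1, Or.inr h⟩

lemma split (t : ℝ) (ht : t ∈ Icc (0 : ℝ) 1) :
    ∃ (i : Fin 3) (s : ℝ), s ∈ Icc (0 : ℝ) 1 ∧ (s + ((i : ℕ) : ℝ)) / 3 = t := by
  obtain ⟨h0, h1⟩ := ht
  by_cases ha : t ≤ 1 / 3
  · exact ⟨0, 3 * t, ⟨by linarith, by linarith⟩, by simp⟩
  · by_cases hb : t ≤ 2 / 3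
    · exact ⟨1, 3 * t - 1, ⟨by linarith, by linarith⟩, by simp⟩
    · refine ⟨2, 3 * t - 2, ⟨by linarith, by linarith⟩, ?_⟩
      have : (((2 : Fin 3) : ℕ) : ℝ) = 2 := by norm_num
      rw [this]
      ring

lemma V0_left {s : ℝ} (hs : s ∈ Icc (0 : ℝ) 1) : ((0 : ℝ), s) ∈ V0 :=
  (mem_V0 _).2 ⟨⟨⟨le_rfl, zero_le_one⟩, hs⟩, Or.inl rfl⟩

lemma V0_right {s : ℝ} (hs : s ∈ Icc (0 : ℝ) 1) : ((1 : ℝ), s) ∈ V0 :=
  (mem_V0 _).2 ⟨⟨⟨zero_le_one, le_rfl⟩, hs⟩, Or.inr (Or.inl rfl)⟩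

lemma V0_bot {s : ℝ} (hs : s ∈ Icc (0 : ℝ) 1) : (s, (0 : ℝ)) ∈ V0 :=
  (mem_V0 _).2 ⟨⟨hs, ⟨le_rfl, zero_le_one⟩⟩, Or.inr (Or.inr (Or.inl rfl))⟩

lemma V0_top {s : ℝ} (hs : s ∈ Icc (0 : ℝ) 1) : (s, (1 : ℝ)) ∈ V0 :=
  (mem_V0 _).2 ⟨⟨hs, ⟨zero_le_one, le_rfl⟩⟩, Or.inr (Or.inr (Or.inr rfl))⟩

lemma c0 : (((0 : Fin 3) : ℕ) : ℝ) = 0 := by norm_num

lemma c1 : (((1 : Fin 3) : ℕ) : ℝ) = 1 := by norm_num

lemma c2 : (((2 : Fin 3) : ℕ) : ℝ) = 2 := by norm_num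

lemma ne_0l (i : Fin 3) : ((0 : Fin 3), i) ≠ ((1 : Fin 3), (1 : Fin 3)) := by
  revert i
  decide

lemma ne_2l (i : Fin 3) : ((2 : Fin 3), i) ≠ ((1 : Fin 3), (1 : Fin 3)) := by
  revert i
  decide

lemma ne_0r (i : Fin 3) : (i, (0 : Fin 3)) ≠ ((1 : Fin 3), (1 : Fin 3)) := by
  revert i
  decide

lemma ne_2r (i : Fin 3) : (i, (2 : Fin 3)) ≠ ((1 : Fin 3), (1 : Fin 3)) := by
  revert i
  decide

lemma V0_step (p : ℝ × ℝ) (hp : p ∈ V0) :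
    ∃ a : Fin 3 × Fin 3, a ≠ (1, 1) ∧ ∃ q ∈ V0, psi a q = p := by
  obtain ⟨⟨h1, h2⟩, h⟩ := (mem_V0 p).1 hp
  obtain ⟨i, s, hs, es⟩ := split p.1 h1
  obtain ⟨j, t, ht, et⟩ := split p.2 h2
  rcases h with h | h | h | h
  · refine ⟨(0, j), ne_0l j, (0, t), V0_left ht, Prod.ext ?_ et⟩
    show ((0 : ℝ) + (((0 : Fin 3) : ℕ) : ℝ)) / 3 = p.1
    rw [c0, h]; norm_num
  · refine ⟨(2, j), ne_2l j, (1, t), V0_right ht, Prod.ext ?_ et⟩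
    show ((1 : ℝ) + (((2 : Fin 3) : ℕ) : ℝ)) / 3 = p.1
    rw [c2, h]; norm_num
  · refine ⟨(i, 0), ne_0r i, (s, 0), V0_bot hs, Prod.ext es ?_⟩
    show ((0 : ℝ) + (((0 : Fin 3) : ℕ) : ℝ)) / 3 = p.2
    rw [c0, h]; norm_num
  · refine ⟨(i, 2), ne_2r i, (s, 1), V0_top hs, Prod.ext es ?_⟩
    show ((1 : ℝ) + (((2 : Fin 3) : ℕ) : ℝ)) / 3 = p.2
    rw [c2, h]; norm_num

lemma dist_psi (a : Fin 3 × Fin 3) (q r : ℝ × ℝ) : dist (psi a q) (psi a r) ≤ dist q r / 3 := by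
  have h1 : |q.1 - r.1| ≤ dist q r := by
    rw [← Real.dist_eq, Prod.dist_eq]; exact le_max_left _ _
  have h2 : |q.2 - r.2| ≤ dist q r := by
    rw [← Real.dist_eq, Prod.dist_eq]; exact le_max_right _ _
  rw [abs_le] at h1 h2
  rw [Prod.dist_eq, max_le_iff, Real.dist_eq, Real.dist_eq, abs_le, abs_le]
  simp only [psi]
  refine ⟨⟨?_, ?_⟩, ?_, ?_⟩ <;> linarith [h1.1, h1.2, h2.1, h2.2]

lemma V0_sub {K : Set (ℝ × ℝ)} (hK : IsCarpet K) : V0 ⊆ K := by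
  have key : ∀ n : ℕ, ∀ p ∈ V0, ∃ k ∈ K, dist p k ≤ (1 / 3 : ℝ) ^ n := by
    intro n
    induction n with
    | zero =>
      intro p hp
      obtain ⟨k, hk⟩ := hK.2.1
      refine ⟨k, hk, ?_⟩
      obtain ⟨⟨a1, a2⟩, a3, a4⟩ := ((mem_V0 p).1 hp).1
      obtain ⟨⟨b1, b2⟩, b3, b4⟩ := sub_sq hK hk
      rw [Prod.dist_eq, max_le_iff, Real.dist_eq, Real.dist_eq, abs_le, abs_le, pow_zero]
      refine ⟨⟨?_, ?_⟩, ?_, ?_⟩ <;> linarith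
    | succ n ih =>
      intro p hp
      obtain ⟨a, ha, q, hq, rfl⟩ := V0_step p hp
      obtain ⟨k, hk, hd⟩ := ih q hq
      refine ⟨psi a k, psi_mem hK ha hk, (dist_psi a q k).trans ?_⟩
      rw [pow_succ]
      linarith
  intro p hp
  rw [← hK.1.isClosed.closure_eq, Metric.mem_closure_iff]
  intro ε hε
  obtain ⟨n, hn⟩ := exists_pow_lt_of_lt_one hε (show (1 / 3 : ℝ) < 1 by norm_num)
  obtain ⟨k, hk, hd⟩ := key n p hp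
  exact ⟨k, hk, hd.trans_lt hn⟩

lemma Psi_mem {K : Set (ℝ × ℝ)} (hK : IsCarpet K) (w : List (Fin 3 × Fin 3)) (hw : Adm w)
    (p : ℝ × ℝ) (hp : p ∈ K) : Psi w p ∈ K := by
  induction w with
  | nil => exact hp
  | cons a w ih =>
    exact psi_mem hK (hw a (List.mem_cons_self ..))
      (ih fun b hb => hw b (List.mem_cons_of_mem _ hb))

lemma grid {K : Set (ℝ × ℝ)} (hK : IsCarpet K) (i : Fin 4) (t : ℝ) (ht : t ∈ Icc (0 : ℝ) 1) :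
    (((i : ℕ) : ℝ) / 3, t) ∈ K ∧ (t, ((i : ℕ) : ℝ) / 3) ∈ K := by
  obtain ⟨j, s, hs, es⟩ := split t ht
  have hV := V0_sub hK
  have k0 : ((0 : ℝ) / 3, t) ∈ K ∧ (t, (0 : ℝ) / 3) ∈ K := by
    rw [zero_div]
    exact ⟨hV (V0_left ht), hV (V0_bot ht)⟩
  have k3 : ((3 : ℝ) / 3, t) ∈ K ∧ (t, (3 : ℝ) / 3) ∈ K := by
    rw [div_self (by norm_num : (3 : ℝ) ≠ 0)]
    exact ⟨hV (V0_right ht), hV (V0_top ht)⟩
  have k1 : ((1 : ℝ) / 3, t) ∈ K ∧ (t, (1 : ℝ) / 3) ∈ K := by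
    have a1 := psi_mem hK (ne_0l j) (hV (V0_right hs))
    have a2 := psi_mem hK (ne_0r j) (hV (V0_top hs))
    simp only [psi, c0, add_zero, es] at a1 a2
    exact ⟨a1, a2⟩
  have k2 : ((2 : ℝ) / 3, t) ∈ K ∧ (t, (2 : ℝ) / 3) ∈ K := by
    have a1 := psi_mem hK (ne_2l j) (hV (V0_left hs))
    have a2 := psi_mem hK (ne_2r j) (hV (V0_bot hs))
    simp only [psi, c2, zero_add, es] at a1 a2
    exact ⟨a1, a2⟩
  fin_cases i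
  · simpa using k0
  · simpa using k1
  · simpa using k2
  · simpa using k3

lemma digit_eq (i j : Fin 3) (x y : ℝ) (hx : x ∈ Ioo (0 : ℝ) 1) (hy : y ∈ Icc (0 : ℝ) 1)
    (h : (x + ((i : ℕ) : ℝ)) / 3 = (y + ((j : ℕ) : ℝ)) / 3) : i = j ∧ x = y := by
  obtain ⟨x0, x1⟩ := hx
  obtain ⟨y0, y1⟩ := hy
  have h1 : ((i : ℕ) : ℝ) < ((j : ℕ) : ℝ) + 1 := by linarith
  have h2 : ((j : ℕ) : ℝ) < ((i : ℕ) : ℝ) + 1 := by linarith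
  have h1' : (i : ℕ) < (j : ℕ) + 1 := by exact_mod_cast h1
  have h2' : (j : ℕ) < (i : ℕ) + 1 := by exact_mod_cast h2
  have h3 : i = j := Fin.ext (by omega)
  subst h3
  exact ⟨rfl, by linarith⟩

lemma psi_inj (a b : Fin 3 × Fin 3) (q r : ℝ × ℝ) (hq : q ∈ Ioo (0 : ℝ) 1 ×ˢ Ioo (0 : ℝ) 1)
    (hr : r ∈ Icc (0 : ℝ) 1 ×ˢ Icc (0 : ℝ) 1) (h : psi a q = psi b r) : a = b ∧ q = r := by
  obtain ⟨e1, f1⟩ := digit_eq a.1 b.1 q.1 r.1 hq.1 hr.1 (congrArg Prod.fst h)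
  obtain ⟨e2, f2⟩ := digit_eq a.2 b.2 q.2 r.2 hq.2 hr.2 (congrArg Prod.snd h)
  exact ⟨Prod.ext e1 e2, Prod.ext f1 f2⟩

lemma Psi_open (w : List (Fin 3 × Fin 3)) (p : ℝ × ℝ) (hp : p ∈ Ioo (0 : ℝ) 1 ×ˢ Ioo (0 : ℝ) 1) :
    Psi w p ∈ Ioo (0 : ℝ) 1 ×ˢ Ioo (0 : ℝ) 1 := by
  induction w with
  | nil => exact hp
  | cons a w ih =>
    obtain ⟨⟨a1, a2⟩, a3, a4⟩ := ih
    have d1 := digit_le a.1
    have d2 := digit_le a.2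
    simp only [Psi, psi, mem_prod, mem_Ioo]
    refine ⟨⟨?_, ?_⟩, ?_, ?_⟩ <;> linarith [d1.1, d1.2, d2.1, d2.2]

lemma holes {K : Set (ℝ × ℝ)} (hK : IsCarpet K) (w : List (Fin 3 × Fin 3))
    (p : ℝ × ℝ) (hp : p ∈ Ioo (1 / 3 : ℝ) (2 / 3) ×ˢ Ioo (1 / 3 : ℝ) (2 / 3)) : Psi w p ∉ K := by
  obtain ⟨⟨a1, a2⟩, a3, a4⟩ := hp
  induction w with
  | nil =>
    intro h
    obtain ⟨b, hb, r, hr, e⟩ := (mem_iff hK _).1 h
    have e' : psi (1, 1) (3 * p.1 - 1, 3 * p.2 - 1) = psi b r := by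
      rw [e]
      simp only [Psi, psi, c1]
      ext <;> simp
    have := psi_inj _ _ _ _ ⟨⟨by linarith, by linarith⟩, by linarith, by linarith⟩
      (sub_sq hK hr) e'
    exact hb this.1.symm
  | cons a w ih =>
    intro h
    obtain ⟨b, -, r, hr, e⟩ := (mem_iff hK _).1 h
    have := psi_inj a b (Psi w p) r
      (Psi_open w p ⟨⟨by linarith, by linarith⟩, by linarith, by linarith⟩) (sub_sq hK hr) e.symm
    exact ih (this.2 ▸ hr)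

lemma address {K : Set (ℝ × ℝ)} (hK : IsCarpet K) (n : ℕ) :
    ∀ p ∈ K, ∃ w, Adm w ∧ w.length = n ∧ p ∈ Psi w '' K := by
  induction n with
  | zero =>
    intro p hp
    exact ⟨[], fun a ha => absurd ha (List.not_mem_nil), rfl, p, hp, rfl⟩
  | succ n ih =>
    intro p hp
    obtain ⟨a, ha, q, hq, rfl⟩ := (mem_iff hK p).1 hp
    obtain ⟨w, hw, hl, r, hr, rfl⟩ := ih q hq
    refine ⟨a :: w, ?_, by simp [hl], r, hr, rfl⟩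
    intro b hb
    rcases List.mem_cons.1 hb with rfl | hb
    · exact ha
    · exact hw b hb

lemma affine (w : List (Fin 3 × Fin 3)) : ∃ c : ℝ × ℝ, ∀ p : ℝ × ℝ,
    Psi w p = (c.1 + p.1 / 3 ^ w.length, c.2 + p.2 / 3 ^ w.length) := by
  induction w with
  | nil => exact ⟨(0, 0), fun p => by simp [Psi]⟩
  | cons a w ih =>
    obtain ⟨c, hc⟩ := ih
    refine ⟨psi a c, fun p => ?_⟩
    simp only [Psi, hc p, psi, List.length_cons, pow_succ]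
    ext
    · simp only
      field_simp
      ring
    · simp only
      field_simp
      ring

end G0aux

theorem g0 : S_G0 := fun _ hK =>
  ⟨G0aux.sub_sq hK, G0aux.mem_V0, G0aux.V0_sub hK, G0aux.Psi_mem hK, G0aux.grid hK,
    fun w _ => G0aux.holes hK w, fun p hp n => G0aux.address hK n p hp, G0aux.affine⟩

end Pool.Agent.H985Z.SC
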